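import Pool.Agent.U143.ST.Avg

/-!
# The Sato-Tate law and the Frobenius elements in towers of alternating extensions

`K` is a number field, `G` the Sato-Tate group over `K` of a family as in the problem and `x_v ∈ G` an
element of the class of the prime `v` of `K` (any element at the finitely many exceptional primes).  Let `F`
be a finite Galois extension of `K`.  The law for the pairs `(x_v, Frob_v)`, `Frob_v` in `Gal(F/K)`, contains
the Sato-Tate laws over all fields between `K` and `F`.  The criterion of Serre for it asks that the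
`L`-functions `L(π ⊗ χ, s)`, `π` an irreducible representation of `G` and `χ` one of `Gal(F/K)`, continue to
`Re s ≥ 1` without zeros and poles there (except for `π = 1`, `χ = 1`).

The theorem is about a tower `M = E_t ⊆ … ⊆ E_0 = F` of Galois extensions of `K` such that every
`Gal(E_i/E_{i+1})` is an alternating group of large degree.  No case of the Sato-Tate law is assumed, over no
field; the new `L`-functions, those with `χ` not trivial on `Gal(F/M)`, must have meromorphic continuations
near the points of the line `Re s = 1`.  Then they have neither zeros nor poles on this line.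

A Euler factor at a prime `v` which is ramified in `F` is formed with an arbitrary Frobenius element; this
changes the `L`-functions by finitely many factors without zeros and poles in `Re s > 0`.
-/

set_option autoImplicit false

namespace Pool.Agent.Results.MP_4c4ce6_nt.AlternatingTowers

open NumberField IsDedekindDomain Filter Topology
open Pool.Agent.W401.Cheb (IsFrob)
open Pool.Agent.U143.AR (IsAlternatingTower)
open Pool.Agent.TH526.DS (IsNew)
open scoped ComplexConjugate Kronecker

section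

variable {K : Type} [Field K] [NumberField K]

/-- The average of `φ` over the primes of `K` of norm at most `N`. -/
noncomputable def avg (φ : HeightOneSpectrum (𝓞 K) → ℂ) (N : ℕ) : ℂ :=
  (∑ᶠ v : {v : HeightOneSpectrum (𝓞 K) // Ideal.absNorm v.asIdeal ≤ N}, φ v.1) /
    (Nat.card {v : HeightOneSpectrum (𝓞 K) // Ideal.absNorm v.asIdeal ≤ N} : ℂ)

/-- For every prime `v` of `K` the automorphism `γ v` is the inverse of a Frobenius element at `v` (a
geometric Frobenius element). -/
def IsGeometricFrobenius (γ : HeightOneSpectrum (𝓞 K) → Gal(AlgebraicClosure K/K)) : Prop :=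
  ∀ v, IsFrob v (γ v)⁻¹

/-- `f` is a class function on `Gal(F/K)`, the quotient of the absolute Galois group of `K` by the one of
`F`, and its sums over the cosets of `Gal(F/M)` are `0`. -/
def IsNewFunction (M F : IntermediateField K (AlgebraicClosure K))
    (f : Gal(AlgebraicClosure K/K) ⧸ F.fixingSubgroup → ℂ) : Prop :=
  (∀ g h : Gal(AlgebraicClosure K/K),
    f (QuotientGroup.mk (h * g * h⁻¹)) = f (QuotientGroup.mk g)) ∧
  ∀ g : Gal(AlgebraicClosure K/K),
    ∑ᶠ q ∈ {q : Gal(AlgebraicClosure K/K) ⧸ F.fixingSubgroup |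
      ∃ a ∈ M.fixingSubgroup, q = QuotientGroup.mk (g * a)}, f q = 0

variable {G : Type} [Group G] {d n : ℕ}

/-- The character of `π`. -/
noncomputable def tr (π : G →* Matrix.unitaryGroup (Fin d) ℂ) (g : G) : ℂ :=
  (π g : Matrix (Fin d) (Fin d) ℂ).trace

/-- The Euler product `L(π ⊗ χ, s) = ∏_v det(1 - q_v^{-s} π(x_v) ⊗ χ(γ_v))⁻¹` over the primes `v` of
`K`. -/
noncomputable def LFun (π : G →* Matrix.unitaryGroup (Fin d) ℂ) (x : HeightOneSpectrum (𝓞 K) → G)
    (χ : Representation ℂ Gal(AlgebraicClosure K/K) (Fin n → ℂ))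
    (γ : HeightOneSpectrum (𝓞 K) → Gal(AlgebraicClosure K/K)) (s : ℂ) : ℂ :=
  ∏' v : HeightOneSpectrum (𝓞 K), (Matrix.det (1 - ((Ideal.absNorm v.asIdeal : ℂ) ^ (-s)) •
    ((π (x v) : Matrix (Fin d) (Fin d) ℂ) ⊗ₖ LinearMap.toMatrix' (χ (γ v)))))⁻¹

/-- `Λ` is a meromorphic continuation of `L(π ⊗ χ, s)` to a neighbourhood of `1 + iτ`. -/
def IsContinuation (π : G →* Matrix.unitaryGroup (Fin d) ℂ) (x : HeightOneSpectrum (𝓞 K) → G)
    (χ : Representation ℂ Gal(AlgebraicClosure K/K) (Fin n → ℂ))
    (γ : HeightOneSpectrum (𝓞 K) → Gal(AlgebraicClosure K/K)) (τ : ℝ) (Λ : ℂ → ℂ) : Prop :=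
  MeromorphicAt Λ (1 + τ * Complex.I) ∧
    ∀ᶠ s in 𝓝 ((1 : ℂ) + τ * Complex.I), (1 : ℝ) < s.re → Λ s = LFun π x χ γ s

end

section Bridge

variable {K : Type} [Field K] [NumberField K]

open Pool.Agent.TH553.ST Pool.Agent.W540.BE

theorem avg_eq (g : HeightOneSpectrum (𝓞 K) → ℂ) : avg g = mn g := by
  funext N
  have hs : ∀ v, v ∈ upto K N ↔ Ideal.absNorm v.asIdeal ≤ N := fun v => mem_upto
  let e : {v : HeightOneSpectrum (𝓞 K) // Ideal.absNorm v.asIdeal ≤ N} ≃ (upto K N) :=
    Equiv.subtypeEquivRight fun v => (hs v).symm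
  have hfin : Finite {v : HeightOneSpectrum (𝓞 K) // Ideal.absNorm v.asIdeal ≤ N} :=
    Finite.of_equiv _ e.symm
  unfold avg mn
  have h1 : (∑ᶠ v : {v : HeightOneSpectrum (𝓞 K) // Ideal.absNorm v.asIdeal ≤ N}, g v.1) =
      ∑ v ∈ upto K N, g v := by
    rw [← Finset.sum_coe_sort, ← finsum_eq_sum_of_fintype, ← finsum_comp_equiv e]
    rfl
  have h2 : Nat.card {v : HeightOneSpectrum (𝓞 K) // Ideal.absNorm v.asIdeal ≤ N} =
      (upto K N).card := by
    rw [Nat.card_congr e, Nat.card_eq_fintype_card, Fintype.card_coe]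
  rw [h1, h2, Complex.real_smul, div_eq_inv_mul]
  push_cast
  rfl

end Bridge

/-- **The Sato-Tate law in towers of alternating extensions.**  For every `d` there is a number `m₀` with
the following property.  Let `K` be a number field, `G` a group, `x_v ∈ G` for the primes `v` of `K` and `π` a
unitary representation of `G` of dimension `d` with real character.  Let `M ⊆ F` be finite Galois extensions
of `K` and `M = E_t ⊆ … ⊆ E_0 = F` a chain of Galois extensions of `K` such that every `Gal(E_i/E_{i+1})` is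
an alternating group of degree at least `m₀` (on which `G_K` acts through the symmetric group).

I. Let `τ` be real and suppose that the `L`-functions `L(π ⊗ χ, s)`, for all irreducible representations `χ`
of `Gal(F/K)` that are not trivial on `Gal(F/M)`, have meromorphic continuations to neighbourhoods of
`1 + iτ`.  Then none of them has a zero or a pole at `1 + iτ`.

II. If this is so for all real `τ`, then, for every class function `f` on `Gal(F/K)` whose sums over the
cosets of `Gal(F/M)` are `0`, the average of `tr π(x_v) f(γ_v)` over the primes `v` with `q_v ≤ N` tends to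
`0` for `N → ∞`. -/
theorem result (d : ℕ) : ∃ m₀ : ℕ, ∀ (K : Type) [Field K] [NumberField K] (G : Type) [Group G]
    (π : G →* Matrix.unitaryGroup (Fin d) ℂ), (∀ g, conj (tr π g) = tr π g) →
    ∀ (x : HeightOneSpectrum (𝓞 K) → G)
      (γ : HeightOneSpectrum (𝓞 K) → Gal(AlgebraicClosure K/K)), IsGeometricFrobenius γ →
    ∀ (M F : IntermediateField K (AlgebraicClosure K)) [NumberField M] [NumberField F],
      IsGalois K M → IsGalois K F → IsAlternatingTower m₀ M F →
      (∀ τ : ℝ,
        (∀ (n : ℕ) (χ : Representation ℂ Gal(AlgebraicClosure K/K) (Fin n → ℂ)), IsNew M F χ →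
          ∃ Λ, IsContinuation π x χ γ τ Λ) →
        ∀ (n : ℕ) (χ : Representation ℂ Gal(AlgebraicClosure K/K) (Fin n → ℂ)), IsNew M F χ →
          ∀ Λ, IsContinuation π x χ γ τ Λ → meromorphicOrderAt Λ (1 + τ * Complex.I) = 0) ∧
      ((∀ (τ : ℝ) (n : ℕ) (χ : Representation ℂ Gal(AlgebraicClosure K/K) (Fin n → ℂ)),
          IsNew M F χ → ∃ Λ, IsContinuation π x χ γ τ Λ) →
        ∀ f : Gal(AlgebraicClosure K/K) ⧸ F.fixingSubgroup → ℂ, IsNewFunction M F f →
          Tendsto (avg fun v => tr π (x v) * f (QuotientGroup.mk (γ v))) atTop (𝓝 0)) := by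
  classical
  obtain ⟨m₀, hm₀⟩ := Pool.Agent.U143.ST.orders d
  refine ⟨m₀, fun K _ _ G _ π hreal x γ hγ M F _ _ hM hF hMF => ?_⟩
  have h1 := hm₀ K (fun v => (π (x v) : Matrix (Fin d) (Fin d) ℂ)) (fun v => (π (x v)).2)
    (fun v => hreal (x v)) γ hγ M F hM hF hMF
  have key : ∀ τ : ℝ,
        (∀ (n : ℕ) (χ : Representation ℂ Gal(AlgebraicClosure K/K) (Fin n → ℂ)), IsNew M F χ →
          ∃ Λ, IsContinuation π x χ γ τ Λ) →
        ∀ (n : ℕ) (χ : Representation ℂ Gal(AlgebraicClosure K/K) (Fin n → ℂ)), IsNew M F χ →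
          ∀ Λ, IsContinuation π x χ γ τ Λ → meromorphicOrderAt Λ (1 + τ * Complex.I) = 0 :=
    fun τ hex n χ hχ Λ hΛ => h1 τ (fun r χ' h => hex r χ' h) n χ hχ Λ hΛ
  refine ⟨key, fun hex f hf => ?_⟩
  obtain ⟨hUo, hUn⟩ := Pool.Agent.TH526.DS.normal_fix F hF
  have hfin : Finite (Gal(AlgebraicClosure K/K) ⧸ F.fixingSubgroup) :=
    Subgroup.quotient_finite_of_isOpen _ hUo
  rw [avg_eq]
  refine Pool.Agent.U143.ST.averages (M := M) (F := F) (fun v => (π (x v)).2) γ
    (fun τ n χ hχ => ?_) f (fun g y => ?_) ?_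
  · obtain ⟨Λ, hΛ⟩ := hex τ n χ hχ
    exact ⟨Λ, hΛ, key τ (fun r χ' h => hex τ r χ' h) n χ hχ Λ hΛ⟩
  · obtain ⟨g, rfl⟩ := QuotientGroup.mk_surjective g
    obtain ⟨y, rfl⟩ := QuotientGroup.mk_surjective y
    exact hf.1 g y
  · intro _ _ g
    obtain ⟨g, rfl⟩ := QuotientGroup.mk_surjective g
    have h2 := hf.2 g
    rw [finsum_mem_eq_finite_toFinset_sum _ (Set.toFinite _)] at h2
    refine Eq.trans ?_ h2
    rw [← Equiv.sum_comp (Equiv.mulLeft (QuotientGroup.mk g)⁻¹)]
    refine Eq.trans (Finset.sum_congr rfl fun i _ => ?_)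
      ((Finset.sum_ite_mem Finset.univ _ f).trans (by rw [Finset.univ_inter]))
    have hx : (QuotientGroup.mk g : Gal(AlgebraicClosure K/K) ⧸ F.fixingSubgroup) *
        Equiv.mulLeft (QuotientGroup.mk g)⁻¹ i = i := mul_inv_cancel_left _ _
    have hiff : Equiv.mulLeft (QuotientGroup.mk g)⁻¹ i ∈
          M.fixingSubgroup.map (QuotientGroup.mk' F.fixingSubgroup) ↔
        i ∈ (Set.toFinite {q : Gal(AlgebraicClosure K/K) ⧸ F.fixingSubgroup |
          ∃ a ∈ M.fixingSubgroup, q = QuotientGroup.mk (g * a)}).toFinset := by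
      rw [Set.Finite.mem_toFinset]
      constructor
      · rintro ⟨a, ha, h3⟩
        refine ⟨a, ha, ?_⟩
        have h4 : (QuotientGroup.mk a : Gal(AlgebraicClosure K/K) ⧸ F.fixingSubgroup) =
          (QuotientGroup.mk g)⁻¹ * i := h3
        rw [QuotientGroup.mk_mul, h4, mul_inv_cancel_left]
      · rintro ⟨a, ha, h3⟩
        refine ⟨a, ha, ?_⟩
        have h4 : (QuotientGroup.mk a : Gal(AlgebraicClosure K/K) ⧸ F.fixingSubgroup) =
          (QuotientGroup.mk g)⁻¹ * i := by
          rw [h3, QuotientGroup.mk_mul, inv_mul_cancel_left]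
        exact h4
    rw [hx]
    by_cases h : i ∈ (Set.toFinite {q : Gal(AlgebraicClosure K/K) ⧸ F.fixingSubgroup |
          ∃ a ∈ M.fixingSubgroup, q = QuotientGroup.mk (g * a)}).toFinset
    · rw [if_pos (hiff.2 h), if_pos h, one_mul]
    · rw [if_neg (fun h' => h (hiff.1 h')), if_neg h, zero_mul]

end Pool.Agent.Results.MP_4c4ce6_nt.AlternatingTowers
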