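import Pool.Agent.U62.JST.Joint

/-!
# The Sato-Tate law for two families from the laws of each: only poles at `s = 1` can be obstructions

`K` is a number field, `G` and `G'` are the Sato-Tate groups over `K` of two families as in the problem and `x_v ∈ G`, `x'_v ∈ G'` are elements
of the classes of the prime `v` of `K` (any elements at the finitely many exceptional primes; this changes the `L`-functions below by finitely
many factors without zeros and poles in `Re s > 0`). Suppose that the Sato-Tate law is known for each of the two families. The law for the two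
families together (for the direct sum of the two, if its Sato-Tate group is `G × G'`) is the equidistribution of the pairs `(x_v, x'_v)`. The
criterion of Serre asks for it that all Rankin-Selberg `L`-functions `L(π ⊗ π', s)`, `π ≠ 1` and `π' ≠ 1` irreducible representations of `G`
and `G'`, continue to `Re s ≥ 1` without zeros and poles.

The theorem (I is unconditional, II needs only local meromorphic continuations):

I. Without any continuation, `|log |L(π ⊗ π', 1 + iτ + ε)||` is at most `(1 + o(1)) log (1 / ε)`, and at most `(1 - δ) log (1 / ε)` if the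
laws of `|tr π|` and `|tr π'|` differ. At a point `1 + iτ` with a meromorphic continuation the order `m` is therefore `0` or `±1`,
`m = ±1` is possible only if the two laws are the same, and then `tr π (x_v)` is almost equal to `- m conj (tr π' (x'_v)) N(v)^{iτ}` for all
`v` outside of a set of logarithmic density zero.

II. Suppose that the `L(π ⊗ π', s)` have meromorphic continuations to neighbourhoods of the points of `Re s = 1`. Then the joint law holds if and
only if no `L(π ⊗ π', s)` has a pole at the point `s = 1` (to be known only for `π`, `π'` with the same law of `|tr|`), and those with `dim π = 1`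
(and the same law) have no zeros and poles on `Re s = 1`. The other points of the line need not be looked at, and zeros need not be excluded.
If `G` has no characters of dimension one besides `1` (`SU(2)`, `USp(2g)` and all other connected semisimple groups), only the poles at `s = 1` remain.
-/

set_option autoImplicit false

namespace Pool.Agent.Results.MP_4c4ce6_nt.JointFromMeromorphy

open NumberField IsDedekindDomain Filter Topology MeasureTheory
open scoped ComplexConjugate Kronecker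

section

variable {K : Type} [Field K] [NumberField K]

/-- The average of `φ` over the primes of `K` of norm at most `N`. -/
noncomputable def avg (φ : HeightOneSpectrum (𝓞 K) → ℂ) (N : ℕ) : ℂ :=
  (∑ᶠ v : {v : HeightOneSpectrum (𝓞 K) // Ideal.absNorm v.asIdeal ≤ N}, φ v.1) /
    (Nat.card {v : HeightOneSpectrum (𝓞 K) // Ideal.absNorm v.asIdeal ≤ N} : ℂ)

/-- The classes of the `x v` are equidistributed for `μ`. -/
def Equidistributed {G : Type} [Group G] [TopologicalSpace G] [MeasurableSpace G]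
    (x : HeightOneSpectrum (𝓞 K) → G) (μ : Measure G) : Prop :=
  ∀ f : G → ℂ, Continuous f → (∀ g h, f (h * g * h⁻¹) = f g) →
    Tendsto (avg fun v => f (x v)) atTop (𝓝 (∫ g, f g ∂μ))

/-- The classes of the pairs `(x v, x' v)` are equidistributed in `G × G'`. -/
def JointlyEquidistributed {G G' : Type} [Group G] [TopologicalSpace G] [MeasurableSpace G]
    [Group G'] [TopologicalSpace G'] [MeasurableSpace G']
    (x : HeightOneSpectrum (𝓞 K) → G) (μ : Measure G)
    (x' : HeightOneSpectrum (𝓞 K) → G') (μ' : Measure G') : Prop :=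
  ∀ f : G × G' → ℂ, Continuous f → (∀ g g' h h', f (h * g * h⁻¹, h' * g' * h'⁻¹) = f (g, g')) →
    Tendsto (avg fun v => f (x v, x' v)) atTop (𝓝 (∫ p, f p ∂(μ.prod μ')))

end

section

variable {G : Type} [Group G] {n : ℕ}

/-- The character of `π`. -/
noncomputable def tr (π : G →* Matrix.unitaryGroup (Fin n) ℂ) (g : G) : ℂ :=
  (π g : Matrix (Fin n) (Fin n) ℂ).trace

/-- The unitary representation `π` is continuous, irreducible (only the scalars commute with all
matrices `π g`) and not trivial. -/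
structure IsNontrivialIrreducible [TopologicalSpace G]
    (π : G →* Matrix.unitaryGroup (Fin n) ℂ) : Prop where
  continuous : Continuous π
  schur : ∀ A : Matrix (Fin n) (Fin n) ℂ, (∀ g, (π g : Matrix (Fin n) (Fin n) ℂ) * A = A * π g) →
    ∃ c : ℂ, A = c • (1 : Matrix (Fin n) (Fin n) ℂ)
  nontrivial : ∃ g, π g ≠ 1

/-- `|tr π|` and `|tr π'|` have the same law (the same even moments, which determine the law). -/
def SameLaw {G' : Type} [Group G'] {n' : ℕ} [MeasurableSpace G] [MeasurableSpace G']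
    (π : G →* Matrix.unitaryGroup (Fin n) ℂ) (μ : Measure G)
    (π' : G' →* Matrix.unitaryGroup (Fin n') ℂ) (μ' : Measure G') : Prop :=
  ∀ k : ℕ, ∫ g, ‖tr π g‖ ^ (2 * k) ∂μ = ∫ g, ‖tr π' g‖ ^ (2 * k) ∂μ'

variable {K : Type} [Field K] [NumberField K] {G' : Type} [Group G'] {n' : ℕ}

/-- The Euler product `L(π ⊗ π', s) = ∏_v det(1 - N(v)^{-s} π(x_v) ⊗ π'(x'_v))⁻¹` over the primes `v` of `K`. -/
noncomputable def LFun (π : G →* Matrix.unitaryGroup (Fin n) ℂ) (x : HeightOneSpectrum (𝓞 K) → G)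
    (π' : G' →* Matrix.unitaryGroup (Fin n') ℂ) (x' : HeightOneSpectrum (𝓞 K) → G') (s : ℂ) : ℂ :=
  ∏' v : HeightOneSpectrum (𝓞 K), (Matrix.det (1 - ((Ideal.absNorm v.asIdeal : ℂ) ^ (-s)) •
    ((π (x v) : Matrix (Fin n) (Fin n) ℂ) ⊗ₖ (π' (x' v) : Matrix (Fin n') (Fin n') ℂ))))⁻¹

/-- `log |L(π ⊗ π', 1 + iτ + ε)| / log (1/ε)`. -/
noncomputable def size (π : G →* Matrix.unitaryGroup (Fin n) ℂ) (x : HeightOneSpectrum (𝓞 K) → G)
    (π' : G' →* Matrix.unitaryGroup (Fin n') ℂ) (x' : HeightOneSpectrum (𝓞 K) → G')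
    (τ ε : ℝ) : ℝ := Real.log ‖LFun π x π' x' (1 + τ * Complex.I + ε)‖ / Real.log (1 / ε)

/-- `Λ` is a meromorphic continuation of `L(π ⊗ π', s)` to a neighbourhood of `1 + iτ`. -/
def IsContinuation (π : G →* Matrix.unitaryGroup (Fin n) ℂ) (x : HeightOneSpectrum (𝓞 K) → G)
    (π' : G' →* Matrix.unitaryGroup (Fin n') ℂ) (x' : HeightOneSpectrum (𝓞 K) → G')
    (τ : ℝ) (Λ : ℂ → ℂ) : Prop :=
  MeromorphicAt Λ (1 + τ * Complex.I) ∧
    ∀ᶠ s in 𝓝 ((1 : ℂ) + τ * Complex.I), (1 : ℝ) < s.re → Λ s = LFun π x π' x' s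

/-- The set `S` of primes has logarithmic density zero: `∑_{v ∈ S} N(v)^{-1-ε} = o(log (1/ε))`. -/
def LogDensityZero (S : Set (HeightOneSpectrum (𝓞 K))) : Prop :=
  Tendsto (fun ε : ℝ => (∑' v : HeightOneSpectrum (𝓞 K),
    S.indicator (fun _ => (1 : ℝ)) v * (Ideal.absNorm v.asIdeal : ℝ) ^ (-(1 + ε))) / Real.log (1 / ε))
    (𝓝[>] 0) (𝓝 0)

end

section Bridge

set_option linter.unusedSectionVars false

open Pool.Agent.TH553.ST Pool.Agent.TH553.RS Pool.Agent.W540.BE Pool.Agent.U62.JST

variable {K : Type} [Field K] [NumberField K]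

theorem avg_eq (g : HeightOneSpectrum (𝓞 K) → ℂ) : avg g = mn g := by
  funext N
  have hs : ∀ v, v ∈ upto K N ↔ Ideal.absNorm v.asIdeal ≤ N := fun v => mem_upto
  let e : {v : HeightOneSpectrum (𝓞 K) // Ideal.absNorm v.asIdeal ≤ N} ≃ (upto K N) :=
    Equiv.subtypeEquivRight fun v => (hs v).symm
  have hfin : Finite {v : HeightOneSpectrum (𝓞 K) // Ideal.absNorm v.asIdeal ≤ N} :=
    Finite.of_equiv _ e.symm
  unfold avg mn
  have h1 : (∑ᶠ v : {v : HeightOneSpectrum (𝓞 K) // Ideal.absNorm v.asIdeal ≤ N}, g v.1) =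
      ∑ v ∈ upto K N, g v := by
    rw [← Finset.sum_coe_sort, ← finsum_eq_sum_of_fintype, ← finsum_comp_equiv e]
    rfl
  have h2 : Nat.card {v : HeightOneSpectrum (𝓞 K) // Ideal.absNorm v.asIdeal ≤ N} =
      (upto K N).card := by
    rw [Nat.card_congr e, Nat.card_eq_fintype_card, Fintype.card_coe]
  rw [h1, h2, Complex.real_smul, div_eq_inv_mul]
  push_cast
  rfl

variable {G : Type} [Group G] [TopologicalSpace G] [IsTopologicalGroup G] [CompactSpace G]
  [MeasurableSpace G] [BorelSpace G] {μ : Measure G} [IsProbabilityMeasure μ] [μ.IsHaarMeasure]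
  {x : HeightOneSpectrum (𝓞 K) → G}
  {G' : Type} [Group G'] [TopologicalSpace G'] [IsTopologicalGroup G'] [CompactSpace G']
  [MeasurableSpace G'] [BorelSpace G'] {μ' : Measure G'} [IsProbabilityMeasure μ'] [μ'.IsHaarMeasure]
  {x' : HeightOneSpectrum (𝓞 K) → G'}

theorem law_of (h : Equidistributed x μ) : Law x μ := by
  intro f hf hcl
  have h1 := h (fun g => (f g : ℂ)) (Complex.continuous_ofReal.comp hf) fun g h => by rw [hcl]
  have h0 : ∫ g, (f g : ℂ) ∂μ = ((∫ g, f g ∂μ : ℝ) : ℂ) := integral_ofReal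
  rw [avg_eq, h0] at h1
  have h2 := (Complex.continuous_re.tendsto _).comp h1
  refine h2.congr fun N => ?_
  simp only [Function.comp]
  rw [re_mn]
  rfl

variable {n n' : ℕ} {π : G →* Matrix.unitaryGroup (Fin n) ℂ} {π' : G' →* Matrix.unitaryGroup (Fin n') ℂ}

theorem same_iff : SameLaw π μ π' μ' ↔ Same π μ π' μ' := by
  unfold SameLaw Same
  simp only [pow_mul]
  rfl

theorem ni_iff : IsNontrivialIrreducible π ↔ NI π :=
  ⟨fun h => ⟨h.continuous, h.schur, h.nontrivial⟩, fun h => ⟨h.1, h.2.1, h.2.2⟩⟩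

theorem con_iff {τ : ℝ} {Λ : ℂ → ℂ} : IsContinuation π x π' x' τ Λ ↔ Con π x π' x' τ Λ := Iff.rfl

end Bridge

/-- **The joint Sato-Tate law of two families.** `K` is a number field, `G` and `G'` are compact groups with Haar probability measures `μ` and
`μ'`, `x_v ∈ G` and `x'_v ∈ G'` for the primes `v` of `K`, and the classes of the `x_v` and those of the `x'_v` are equidistributed.

I. For nontrivial irreducible unitary representations `π` of `G`, `π'` of `G'` and `τ ∈ ℝ` let `X(ε) = log |L(π ⊗ π', 1 + iτ + ε)| / log (1/ε)`.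
Then `limsup |X(ε)| ≤ 1` for `ε → 0`, and `limsup |X(ε)| < 1` if `|tr π|` and `|tr π'|` have different laws. Every
meromorphic continuation `Λ` of `L(π ⊗ π', s)` to a neighbourhood of `1 + iτ` has there an order `m ∈ {-1, 0, 1}`; if `m ≠ 0`, then `|tr π|` and
`|tr π'|` have the same law, and the set of the `v` with `|tr π (x_v) + m conj (tr π' (x'_v)) N(v)^{iτ}| > δ` has
logarithmic density zero for every `δ > 0`.

II. If all these `L(π ⊗ π', s)` have meromorphic continuations to neighbourhoods of all points of `Re s = 1`, then the classes of the pairs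
`(x_v, x'_v)` are equidistributed in `G × G'` if and only if, for all `π` and `π'` for which `|tr π|` and `|tr π'|` have the same law, the continuation
of `L(π ⊗ π', s)` has no pole at `s = 1` and, in the case `dim π = 1`, no zeros and poles on `Re s = 1`. -/
theorem result {K : Type} [Field K] [NumberField K]
    {G : Type} [Group G] [TopologicalSpace G] [IsTopologicalGroup G] [CompactSpace G] [T2Space G]
    [SecondCountableTopology G] [MeasurableSpace G] [BorelSpace G] (μ : Measure G)
    [IsProbabilityMeasure μ] [μ.IsHaarMeasure]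
    {G' : Type} [Group G'] [TopologicalSpace G'] [IsTopologicalGroup G'] [CompactSpace G'] [T2Space G']
    [SecondCountableTopology G'] [MeasurableSpace G'] [BorelSpace G'] (μ' : Measure G')
    [IsProbabilityMeasure μ'] [μ'.IsHaarMeasure]
    (x : HeightOneSpectrum (𝓞 K) → G) (x' : HeightOneSpectrum (𝓞 K) → G')
    (hx : Equidistributed x μ) (hx' : Equidistributed x' μ') :
    (∀ (n n' : ℕ) (π : G →* Matrix.unitaryGroup (Fin n) ℂ) (π' : G' →* Matrix.unitaryGroup (Fin n') ℂ),
      IsNontrivialIrreducible π → IsNontrivialIrreducible π' → ∀ τ : ℝ,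
        (∀ η : ℝ, 0 < η → ∀ᶠ ε in 𝓝[>] (0 : ℝ), |size π x π' x' τ ε| ≤ 1 + η) ∧
        (¬ SameLaw π μ π' μ' → ∃ δ : ℝ, 0 < δ ∧ ∀ᶠ ε in 𝓝[>] (0 : ℝ), |size π x π' x' τ ε| ≤ 1 - δ) ∧
        ∀ Λ : ℂ → ℂ, IsContinuation π x π' x' τ Λ → ∃ m : ℤ,
          meromorphicOrderAt Λ (1 + τ * Complex.I) = m ∧ |m| ≤ 1 ∧
          (m ≠ 0 → SameLaw π μ π' μ' ∧ ∀ δ : ℝ, 0 < δ → LogDensityZero {v : HeightOneSpectrum (𝓞 K) |
            δ < ‖tr π (x v) + m * conj (tr π' (x' v)) *
              (Ideal.absNorm v.asIdeal : ℂ) ^ (τ * Complex.I)‖})) ∧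
    ((∀ (n n' : ℕ) (π : G →* Matrix.unitaryGroup (Fin n) ℂ) (π' : G' →* Matrix.unitaryGroup (Fin n') ℂ),
      IsNontrivialIrreducible π → IsNontrivialIrreducible π' → ∀ τ : ℝ,
        ∃ Λ : ℂ → ℂ, IsContinuation π x π' x' τ Λ) →
      (JointlyEquidistributed x μ x' μ' ↔
        ∀ (n n' : ℕ) (π : G →* Matrix.unitaryGroup (Fin n) ℂ)
          (π' : G' →* Matrix.unitaryGroup (Fin n') ℂ),
          IsNontrivialIrreducible π → IsNontrivialIrreducible π' → SameLaw π μ π' μ' →
            (∀ Λ : ℂ → ℂ, IsContinuation π x π' x' 0 Λ → 0 ≤ meromorphicOrderAt Λ 1) ∧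
            (n = 1 → ∀ (τ : ℝ) (Λ : ℂ → ℂ), IsContinuation π x π' x' τ Λ →
              meromorphicOrderAt Λ (1 + τ * Complex.I) = 0))) := by
  have hl := law_of hx
  have hl' := law_of hx'
  have e10 : (1 : ℂ) + ((0 : ℝ) : ℂ) * Complex.I = 1 := by simp
  refine ⟨fun n n' π π' h h' τ => ?_, fun hcon => ⟨fun hJ n n' π π' h h' _ => ?_, fun hor => ?_⟩⟩
  · refine ⟨fun η hη => Pool.Agent.TH553.ST.pair_le hl hl' h.continuous h.schur h'.continuous
      h'.schur τ hη, fun hS => Pool.Agent.TH553.ST.pair_lt hl hl' h.continuous h.schur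
        h'.continuous h'.schur (fun hS' => hS (same_iff.2 hS')) τ, fun Λ hΛ => ?_⟩
    obtain ⟨m, h1, h2⟩ := Pool.Agent.TH553.ST.order_LP hΛ.1 hΛ.2
    refine ⟨m, h1, ?_, fun hm => ?_⟩
    · by_cases hm : m = 0
      · rw [hm]; norm_num
      · exact (Pool.Agent.TH553.ST.pair_rigid hl hl' h.continuous h.schur h'.continuous
          h'.schur h2 hm).1.le
    · obtain ⟨-, h3, h4⟩ := Pool.Agent.TH553.ST.pair_rigid hl hl' h.continuous h.schur
        h'.continuous h'.schur h2 hm
      refine ⟨same_iff.2 h3, fun δ hδ => ?_⟩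
      have h5 := h4 δ hδ
      have e : {v : HeightOneSpectrum (𝓞 K) | δ < ‖tr π (x v) + m * conj (tr π' (x' v)) *
              (Ideal.absNorm v.asIdeal : ℂ) ^ (τ * Complex.I)‖} =
          {v | δ < ‖Pool.Agent.TH553.ST.df (-(m : ℝ)) (Pool.Agent.TH553.ST.tc π x 0)
            (Pool.Agent.TH553.ST.tc π' x' τ) v‖} := by
        ext v
        simp only [Set.mem_ofPred_eq]
        have e1 : tr π (x v) + m * conj (tr π' (x' v)) *
              (Ideal.absNorm v.asIdeal : ℂ) ^ (τ * Complex.I) =
            Pool.Agent.TH553.ST.df (-(m : ℝ)) (Pool.Agent.TH553.ST.tc π x 0)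
            (Pool.Agent.TH553.ST.tc π' x' τ) v := by
          unfold Pool.Agent.TH553.ST.df
          rw [Pool.Agent.U62.JST.tc_zero]
          unfold Pool.Agent.TH553.ST.tc
          have e2 : conj (((Pool.Agent.W540.BE.nm K v : ℕ) : ℂ) ^ (-(τ * Complex.I : ℂ))) =
              (Ideal.absNorm v.asIdeal : ℂ) ^ (τ * Complex.I) := by
            have harg : ((Ideal.absNorm v.asIdeal : ℕ) : ℂ).arg ≠ Real.pi := by
              rw [Complex.natCast_arg]
              exact Real.pi_pos.ne
            change conj (((Ideal.absNorm v.asIdeal : ℕ) : ℂ) ^ (-(τ * Complex.I : ℂ))) = _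
            have h6 := Complex.conj_cpow ((Ideal.absNorm v.asIdeal : ℕ) : ℂ)
              (conj (-(τ * Complex.I : ℂ))) harg
            rw [Complex.conj_conj] at h6
            rw [← h6]
            simp
          rw [map_mul, e2]
          have e3 : tr π (x v) = Pool.Agent.TH553.ST.chi π (x v) := rfl
          have e4 : tr π' (x' v) = Pool.Agent.TH553.ST.chi π' (x' v) := rfl
          rw [e3, e4]
          push_cast
          ring
        rw [e1]
      rw [e]
      exact h5
  · have hJ' : ∀ f : G × G' → ℂ, Continuous f →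
        (∀ g g' k k', f (k * g * k⁻¹, k' * g' * k'⁻¹) = f (g, g')) →
        Tendsto (Pool.Agent.TH553.ST.mn fun v => f (x v, x' v)) atTop
          (𝓝 (∫ p, f p ∂(μ.prod μ'))) := by
      intro f hf hcl
      rw [← avg_eq]
      exact hJ f hf hcl
    refine ⟨fun Λ hΛ => ?_, fun _ τ Λ hΛ => ?_⟩
    · have h1 := Pool.Agent.U62.JST.order_of_joint hJ' (ni_iff.1 h) (ni_iff.1 h') hΛ
      rw [e10] at h1
      rw [h1]
    · exact Pool.Agent.U62.JST.order_of_joint hJ' (ni_iff.1 h) (ni_iff.1 h') hΛ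
  · intro f hf hcl
    rw [avg_eq]
    have hpole : ∀ (m m' : ℕ) (ρ : G →* Matrix.unitaryGroup (Fin m) ℂ)
        (ρ' : G' →* Matrix.unitaryGroup (Fin m') ℂ), Pool.Agent.U62.JST.NI ρ →
        Pool.Agent.U62.JST.NI ρ' → ∃ Λ, Pool.Agent.U62.JST.Con ρ x ρ' x' 0 Λ ∧
          (Pool.Agent.TH553.ST.Same ρ μ ρ' μ' →
            0 ≤ meromorphicOrderAt Λ (1 + (0 : ℝ) * Complex.I)) := by
      intro m m' ρ ρ' hρ hρ'
      obtain ⟨Λ, hΛ⟩ := hcon m m' ρ ρ' (ni_iff.2 hρ) (ni_iff.2 hρ') 0
      refine ⟨Λ, hΛ, fun hS => ?_⟩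
      rw [e10]
      exact (hor m m' ρ ρ' (ni_iff.2 hρ) (ni_iff.2 hρ') (same_iff.2 hS)).1 Λ hΛ
    refine Pool.Agent.U62.JST.joint' hl hl' (fun m m' ρ ρ' hρ hρ' => ?_) hf hcl
    refine Pool.Agent.U62.JST.avg_zero fun τ => ?_
    obtain ⟨Λ, hΛ⟩ := hcon m m' ρ ρ' (ni_iff.2 hρ) (ni_iff.2 hρ') τ
    refine ⟨Λ, hΛ, ?_⟩
    rcases Nat.lt_or_ge m 2 with hm | hm
    · by_cases hS : Pool.Agent.TH553.ST.Same ρ μ ρ' μ'
      · have hm1 : m = 1 := by
          have hm0 : m ≠ 0 := by
            rintro rfl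
            obtain ⟨g, hg⟩ := hρ.2.2
            exact hg (Subtype.ext (Matrix.ext fun i => i.elim0))
          omega
        exact (hor m m' ρ ρ' (ni_iff.2 hρ) (ni_iff.2 hρ') (same_iff.2 hS)).2 hm1 τ Λ hΛ
      · obtain ⟨k, h7, h8⟩ := Pool.Agent.TH553.ST.order_LP hΛ.1 hΛ.2
        have h9 := Pool.Agent.TH553.ST.pair_zero hl hl' hρ.1 hρ.2.1 hρ'.1 hρ'.2.1 hS h8
        rw [h7, h9]
        rfl
    · exact Pool.Agent.U62.JST.order_zero hl hl' hpole hρ hρ' hm hΛ

end Pool.Agent.Results.MP_4c4ce6_nt.JointFromMeromorphy
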