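import Pool.Agent.U681.MB.Cm
import Pool.Agent.U681.MB.Fi2

/-!
# MP_4c4ce6_nt: the Sato-Tate law over all multiquadratic extensions, uniformly

`K` is a number field, `C` a compact subgroup of `GL_{2g}(ℂ)`, `x v ∈ C` for every prime `v` of `K`.  In
the question `C` is the Sato-Tate group of a compatible family of dimension `2g` and odd weight, and
`x v` is in the class of the Frobenius at `v`; the question is asked over all finite extensions of the
base field.

For integers `d 1, ..., d r` let `L = K(√(d 1), ..., √(d r))`.  The primes `v` of `K` are divided by the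
quadratic symbols of the `d i` modulo `v`, that is by the Frobenius element of `v` in `Gal(L/K)`; the
primes for which all `d i` are squares are the primes which split completely in `L`: up to a negligible
set, the law at these primes is the law over `L`.

We show that, for all scales `M` from `N` to `N'` at the same time and for all `d` with
`|d 1 ⋯ d r| ≤ N^c` that are independent modulo squares and modulo a small exceptional set `T`, all the
patterns of quadratic symbols have the proportion `2^(-r)`, and the law of the `L`-polynomials at the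
primes with a given pattern is the law at all primes, up to `1/k`.
-/

set_option autoImplicit false

namespace Pool.Agent.Results.MP_4c4ce6_nt.MultiquadraticFields

open NumberField IsDedekindDomain Filter Topology MeasureTheory
open Pool.Agent.U681.STw (mean)
open Pool.Agent.U681.UT (lp IsTest)
open Pool.Agent.U681.MB (meanOn proportion pattern IsIndependent)

/-- At all scales `M` from `N` to `N'` and for all independent `d` with at most `R` entries: every pattern
of quadratic symbols has the proportion `2^(-r)` up to `1/k`, and the law of the `L`-polynomials at the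
primes with this pattern is `L M`, up to `1/k`, for all test functions. -/
def SameLaw {K : Type} [Field K] [NumberField K] {g : ℕ} {C : Subgroup (GL (Fin g ⊕ Fin g) ℂ)}
    (x : HeightOneSpectrum (𝓞 K) → C) (T : Finset ℤ) (R k : ℕ) (c : ℝ) (N N' : ℕ)
    (L : ℕ → ((Fin g → ℝ) → ℝ) → ℝ) : Prop :=
  ∀ (r : ℕ) (d : Fin r → ℤ), r ≤ R → IsIndependent T N c d → ∀ M : ℕ, N ≤ M → M ≤ N' →
    ∀ s : Set (Fin r), |proportion (pattern K d s) M - 1 / 2 ^ r| ≤ 1 / (k : ℝ) ∧
      ∀ f : (Fin g → ℝ) → ℝ, IsTest f →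
        |meanOn (pattern K d s) (fun v => f (lp (x v : GL (Fin g ⊕ Fin g) ℂ))) M - L M f| ≤
          1 / (k : ℝ)

/-- `T` consists of at most `B (1 + log (N'/N)) (log N')^⌊c⌋` nonzero integers. -/
def IsSmall (B c : ℝ) (N N' : ℕ) (T : Finset ℤ) : Prop :=
  (0 : ℤ) ∉ T ∧ (T.card : ℝ) ≤ B * (1 + Real.log (N' / N)) * Real.log N' ^ ⌊c⌋₊

/-- **The Sato-Tate law over multiquadratic extensions.**  For all `c > 0`, `k ≥ 1` and `R` there is a
number `B` that depends only on `g`, `n = [K:ℚ]`, `R`, `k` and `c`, such that for every number field `K`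
of degree `n`:

1. for all large `N` (depending on `K`, `g`, `R`, `k`, `c` only), all `C` and `x` and all `N' ≥ N` there is
a set `T` of at most `B (1 + log (N'/N)) (log N')^⌊c⌋` nonzero integers, such that at every scale from `N` to `N'`
the `L`-polynomials have, up to `1/k`, the same law at the primes with a given pattern of quadratic
symbols of `d 1, ..., d r` and at all primes of `K`, for all `d` independent modulo squares and `T` with
`r ≤ R`, `|d 1 ⋯ d r| ≤ N^c`;

2. if for some `x` the `L`-polynomials are equidistributed over `K` for the image of the Haar probability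
measure `μ` of `C` (Q1 over `K`), then for all large `N` and all `N' ≥ N` there is such a `T` that at
every scale from `N` to `N'` the law of the `L`-polynomials at the primes with a given pattern is the
image of `μ`, up to `1/k`. -/
theorem result (g n R k : ℕ) (hk : 1 ≤ k) (c : ℝ) (hc : 0 < c) : ∃ B : ℝ,
    ∀ (K : Type) [Field K] [NumberField K], Module.finrank ℚ K = n →
      (∀ᶠ N : ℕ in atTop, ∀ (C : Subgroup (GL (Fin g ⊕ Fin g) ℂ)),
        IsCompact (C : Set (GL (Fin g ⊕ Fin g) ℂ)) → ∀ (x : HeightOneSpectrum (𝓞 K) → C) (N' : ℕ),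
        N ≤ N' → ∃ T : Finset ℤ, IsSmall B c N N' T ∧
          SameLaw x T R k c N N' fun M f =>
            mean K (fun v => f (lp (x v : GL (Fin g ⊕ Fin g) ℂ))) M) ∧
      ∀ (C : Subgroup (GL (Fin g ⊕ Fin g) ℂ)), IsCompact (C : Set (GL (Fin g ⊕ Fin g) ℂ)) →
        ∀ (x : HeightOneSpectrum (𝓞 K) → C) [MeasurableSpace C] [BorelSpace C] (μ : Measure C)
        [IsProbabilityMeasure μ] [μ.IsMulLeftInvariant],
        (∀ f : (Fin g → ℝ) → ℝ, Continuous f →
          Tendsto (mean K fun v => f (lp (x v : GL (Fin g ⊕ Fin g) ℂ))) atTop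
            (𝓝 (∫ z : C, f (lp (z : GL (Fin g ⊕ Fin g) ℂ)) ∂μ))) →
        ∀ᶠ N : ℕ in atTop, ∀ N' : ℕ, N ≤ N' → ∃ T : Finset ℤ, IsSmall B c N N' T ∧
          SameLaw x T R k c N N' fun _ f => ∫ z : C, f (lp (z : GL (Fin g ⊕ Fin g) ℂ)) ∂μ := by
  refine ⟨Pool.Agent.U681.MB.bn g n (4 * 2 ^ R * k) c, ?_⟩
  intro K _ _ hn
  subst hn
  have hkR : (0 : ℝ) < k := by exact_mod_cast hk
  have hk' : 1 ≤ 4 * 2 ^ R * k := Nat.one_le_iff_ne_zero.2 (by positivity)
  have key : ∀ᶠ N : ℕ in atTop, ∀ (C : Subgroup (GL (Fin g ⊕ Fin g) ℂ)),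
      IsCompact (C : Set (GL (Fin g ⊕ Fin g) ℂ)) → ∀ (x : HeightOneSpectrum (𝓞 K) → C) (N' : ℕ),
      N ≤ N' → ∃ T : Finset ℤ,
        IsSmall (Pool.Agent.U681.MB.bn g (Module.finrank ℚ K) (4 * 2 ^ R * k) c) c N N' T ∧
        ∀ (r : ℕ) (d : Fin r → ℤ), r ≤ R → IsIndependent T N c d → ∀ M : ℕ, N ≤ M → M ≤ N' →
          ∀ s : Set (Fin r), |proportion (pattern K d s) M - 1 / 2 ^ r| ≤ 1 / (k : ℝ) ∧
          ∀ f : (Fin g → ℝ) → ℝ, IsTest f →
            |meanOn (pattern K d s) (fun v => f (lp (x v : GL (Fin g ⊕ Fin g) ℂ))) M -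
              mean K (fun v => f (lp (x v : GL (Fin g ⊕ Fin g) ℂ))) M| ≤ 3 / (4 * (k : ℝ)) := by
    obtain ⟨M₀, hM₀⟩ := eventually_atTop.1 (Pool.Agent.W529.ST.card_pos K)
    filter_upwards [Pool.Agent.U681.MB.law2 K g hc hk', eventually_ge_atTop M₀]
      with N hN hNM C hC x N' hNN'
    obtain ⟨T, hT0, hT1, hT2⟩ := hN C hC x N' hNN'
    refine ⟨T, ⟨hT0, hT1⟩, ?_⟩
    rintro r d hr ⟨i1, i2, i3⟩ M hM1 hM2 s
    have h1 := hT2 r d i1 i2 i3 M hM1 hM2 s
    have h2 := h1 (fun _ => 1) Pool.Agent.U681.MB.one_test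
    refine ⟨(Pool.Agent.U681.MB.cond (F := fun _ => 1) hr hk d s (hM₀ M (hNM.trans hM1))
      (fun _ => by simp) h2 h2).1, fun f hf => ?_⟩
    exact (Pool.Agent.U681.MB.cond hr hk d s (hM₀ M (hNM.trans hM1)) (fun _ => hf.2 _)
      (h1 f hf) h2).2
  refine ⟨?_, ?_⟩
  · filter_upwards [key] with N hN C hC x N' hNN'
    obtain ⟨T, hT1, hT2⟩ := hN C hC x N' hNN'
    refine ⟨T, hT1, fun r d hr hd M hM1 hM2 s => ⟨(hT2 r d hr hd M hM1 hM2 s).1, fun f hf => ?_⟩⟩
    refine ((hT2 r d hr hd M hM1 hM2 s).2 f hf).trans ?_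
    rw [div_le_div_iff₀ (by positivity) hkR]
    linarith
  · intro C hC x _ _ μ _ _ hμ
    obtain ⟨M₀, hM₀⟩ := eventually_atTop.1
      (Pool.Agent.U681.UT.unif hC x μ hμ (ε := 1 / (8 * (k : ℝ))) (by positivity))
    filter_upwards [key, eventually_ge_atTop M₀] with N hN hNM N' hNN'
    obtain ⟨T, hT1, hT2⟩ := hN C hC x N' hNN'
    refine ⟨T, hT1, fun r d hr hd M hM1 hM2 s => ⟨(hT2 r d hr hd M hM1 hM2 s).1, fun f hf => ?_⟩⟩
    have h1 := (hT2 r d hr hd M hM1 hM2 s).2 f hf
    have h2 := hM₀ M (hNM.trans hM1) f hf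
    have h3 := abs_sub_le (meanOn (pattern K d s)
      (fun v => f (lp (x v : GL (Fin g ⊕ Fin g) ℂ))) M)
      (mean K (fun v => f (lp (x v : GL (Fin g ⊕ Fin g) ℂ))) M)
      (∫ z : C, f (lp (z : GL (Fin g ⊕ Fin g) ℂ)) ∂μ)
    have h4 : (3 : ℝ) / (4 * k) + 1 / (8 * k) ≤ 1 / k := by
      have : (3 : ℝ) / (4 * k) + 1 / (8 * k) = 7 / 8 * (1 / k) := by
        field_simp
        norm_num
      rw [this]
      have : 0 < 1 / (k : ℝ) := by positivity
      linarith
    linarith

end Pool.Agent.Results.MP_4c4ce6_nt.MultiquadraticFields
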