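import Pool.Agent.U62.SH.Law

/-!
# The error term of the Sato-Tate law for random hypersurfaces of odd dimension is normal

Let `X_c` be the hypersurface `F_c = 0` of degree `d` in `ℙ^{n+1}` over `ℚ`, `n` odd, `F_c` the form with the integer coefficients `c`. At a
prime `p` of good reduction `#X_c(𝔽_p) = 1 + p + ⋯ + p^n - a_p p^{n/2}`, where `a_p = a_p(c)` is the trace of the normalised Frobenius `s_p` on
`V_l = H^n(X_c)`, a polarised family of odd weight `n`. For almost all `c` the Sato-Tate group is `USp(b)`, `b = dim V` (Beauville), and the class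
functions `φ(tr g)` of the Sato-Tate conjecture have, for polynomials `φ` of degree at most `b`, the mean value `∫ φ(x) dγ(x)`, `γ` the standard
normal law (Diaconis and Shahshahani). The conjecture asks for `∑_{p ≤ X} (φ(a_p) - ∫ φ dγ) = o(π(X))`.

The theorem: for random `c` in the box `|c_μ| ≤ H` the error terms `∑_{p ∈ P, good} w_p (φ(a_p(c)) - ∫ φ dγ)`, divided by
`√(Var_γ φ · ∑_{p ∈ P} w_p²)`, are asymptotically standard normal, for every nonconstant polynomial `φ` of degree at most `(d + 1) / 4` (even if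
`n = 1`), all finite sets `P` of primes `≤ y` and all weights `|w_p| ≤ 1` with `∑ w_p² ≥ δ |P|`, when `|P| → ∞` and `log H / log y → ∞`:
the errors behave exactly as for independent random matrices of `USp(b)`. (The starting result `MP_4589ac_nt.NormalLaw` is the case of the
linear function `φ(x) = x` for surfaces and pairs of curves, even weight; the library has the case of even dimension.)
-/

set_option autoImplicit false

open MeasureTheory ProbabilityTheory

namespace Pool.Agent.Results.MP_4c4ce6_nt.NormalLaw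

/-- The monomials of degree `d` in the variables `x_0, …, x_N`, given by their exponents. -/
abbrev Exponent (N d : ℕ) : Type := {m : Fin (N + 1) → Fin (d + 1) // ∑ i, (m i : ℕ) = d}

/-- The form of degree `d` in `N + 1` variables with the coefficients `c`. -/
noncomputable def form {N d : ℕ} {R : Type} [CommSemiring R] (c : Exponent N d → R) :
    MvPolynomial (Fin (N + 1)) R :=
  ∑ m, MvPolynomial.C (c m) * ∏ i, MvPolynomial.X i ^ (m.1 i : ℕ)

/-- The hypersurface `F = 0` in the projective space over an algebraically closed field is smooth. -/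
def IsSmooth {N : ℕ} {K : Type} [Field K] (F : MvPolynomial (Fin (N + 1)) K) : Prop :=
  ∀ x : Fin (N + 1) → K, x ≠ 0 → MvPolynomial.eval x F = 0 →
    ∃ i, MvPolynomial.eval x (MvPolynomial.pderiv i F) ≠ 0

/-- The hypersurface with the coefficients `c` has good reduction at the prime `p`: it is smooth modulo `p`. -/
def IsGood {N d : ℕ} (c : Exponent N d → ℤ) (p : ℕ) : Prop :=
  ∃ h : p.Prime, haveI : Fact p.Prime := ⟨h⟩
    IsSmooth (form fun μ => ((c μ : ℤ) : AlgebraicClosure (ZMod p)))

/-- The number of the points modulo the prime `p` of the hypersurface in `ℙ^N`: the number of the nonzero vectors at which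
the form vanishes divided by `p - 1`. -/
noncomputable def numPoints {N d : ℕ} (c : Exponent N d → ℤ) (p : ℕ) : ℝ :=
  (Nat.card {x : Fin (N + 1) → ZMod p // x ≠ 0 ∧
    MvPolynomial.eval x (form fun μ => (c μ : ZMod p)) = 0} : ℝ) / (p - 1)

/-- The trace `a_p` of the normalised Frobenius on `H^n`, `n` odd, of the hypersurface of dimension `n`:
`#X(𝔽_p) = 1 + p + ⋯ + p^n - a_p p^{n/2}`. -/
noncomputable def trace {n d : ℕ} (c : Exponent (n + 1) d → ℤ) (p : ℕ) : ℝ :=
  (∑ i ∈ Finset.range (n + 1), (p : ℝ) ^ i - numPoints c p) / √(p : ℝ) ^ n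

/-- The mean value of the polynomial `φ` for the standard normal law. -/
noncomputable def mean (φ : Polynomial ℝ) : ℝ := ∫ x, φ.eval x ∂(gaussianReal 0 1)

/-- The variance of the polynomial `φ` for the standard normal law. -/
noncomputable def variance (φ : Polynomial ℝ) : ℝ := mean (φ ^ 2) - mean φ ^ 2

open Classical in
/-- The weighted error of the Sato-Tate law: `∑ w_p (φ(a_p) - mean φ)` over the primes of good reduction in `P`. -/
noncomputable def error {n d : ℕ} (φ : Polynomial ℝ) (P : Finset ℕ) (w : ℕ → ℝ)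
    (c : Exponent (n + 1) d → ℤ) : ℝ :=
  ∑ p ∈ P.filter (IsGood c), w p * (φ.eval (trace c p) - mean φ)

/-- The proportion of the vectors `c` in the box `|c_μ| ≤ H` with the property `Q`. -/
noncomputable def proportion {ι : Type} [Fintype ι] (H : ℕ) (Q : (ι → ℤ) → Prop) : ℝ :=
  ({c : ι → ℤ | (∀ μ, |c μ| ≤ H) ∧ Q c}.ncard : ℝ) / (2 * H + 1 : ℝ) ^ Fintype.card ι

open Pool.Agent.U62.SH Pool.Agent.Y722.HS in
theorem good_iff {n d : ℕ} (c : Exponent (n + 1) d → ℤ) (p : ℕ) : IsGood c p ↔ GR n d p (red p c) := by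
  unfold IsGood GR Pool.Agent.Y722.HS.red
  refine exists_congr fun h => ?_
  simp only [map_intCast]
  rfl

open Pool.Agent.U62.SH Pool.Agent.Y722.HS in
theorem trace_eq {n d : ℕ} (c : Exponent (n + 1) d → ℤ) (p : ℕ) : trace c p = -tn n d p (red p c) := by
  have h : numPoints c p = (cone (red p c) : ℝ) / (p - 1) := rfl
  unfold trace tn
  rw [h, ← neg_div, neg_sub]

/-- **The error term of the Sato-Tate law for random hypersurfaces of odd dimension is normal.** -/
theorem result (n d : ℕ) (hn : Odd n) (φ : Polynomial ℝ) (hφ : 1 ≤ φ.natDegree)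
    (hd : 4 * φ.natDegree ≤ d + 1) (heven : n = 1 → ∀ x, φ.eval (-x) = φ.eval x)
    (δ : ℝ) (hδ : 0 < δ) (u ε : ℝ) (hε : 0 < ε) :
    ∃ K : ℕ, ∀ (P : Finset ℕ) (w : ℕ → ℝ) (y H : ℕ), (∀ p ∈ P, p.Prime ∧ p ≤ y) →
      (∀ p ∈ P, |w p| ≤ 1) → δ * P.card ≤ ∑ p ∈ P, w p ^ 2 → K ≤ P.card → y ^ K ≤ H →
      |proportion H (fun c : Exponent (n + 1) d → ℤ =>
          error φ P w c ≤ u * √(variance φ * ∑ p ∈ P, w p ^ 2)) -
        (gaussianReal 0 1).real (Set.Iic u)| ≤ ε := by
  classical
  have hn1 : 1 ≤ n := hn.pos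
  have e0 : (-Polynomial.X : Polynomial ℝ).natDegree = 1 := by
    rw [Polynomial.natDegree_neg, Polynomial.natDegree_X]
  have hdeg : (φ.comp (-Polynomial.X)).natDegree = φ.natDegree := by
    rw [Polynomial.natDegree_comp, e0, mul_one]
  have hor : 2 ≤ n ∨ ∀ x, (φ.comp (-Polynomial.X)).eval (-x) = (φ.comp (-Polynomial.X)).eval x := by
    by_cases h1 : n = 1
    · refine Or.inr fun x => ?_
      simp only [Polynomial.eval_comp, Polynomial.eval_neg, Polynomial.eval_X, neg_neg]
      exact (heven h1 x).symm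
    · exact Or.inl (by omega)
  obtain ⟨K, hK⟩ := Pool.Agent.U62.SH.law_good (φ.comp (-Polynomial.X)) (by omega) n d hn1
    (by omega) hor δ hδ u ε hε
  refine ⟨K, fun P w y H hP hw hvar hcard hH => ?_⟩
  have h1 := hK P w y H hP hw hvar hcard hH
  have g1 : Pool.Agent.X280.HG.GM (φ.comp (-Polynomial.X)) = mean φ := Pool.Agent.U62.SH.GM_neg φ
  have g2 : Pool.Agent.X280.HG.GM ((φ.comp (-Polynomial.X)) ^ 2) = mean (φ ^ 2) := by
    rw [← Polynomial.pow_comp]
    exact Pool.Agent.U62.SH.GM_neg (φ ^ 2)
  rw [g1, g2] at h1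
  refine le_trans (le_of_eq ?_) h1
  unfold proportion
  congr 3
  congr 2
  ext c
  simp only [Set.mem_ofPred_eq]
  refine and_congr_right fun _ => ?_
  have e1 : error φ P w c = ∑ p ∈ P.filter (fun p => Pool.Agent.U62.SH.GR n d p
      (Pool.Agent.Y722.HS.red p c)), w p * ((φ.comp (-Polynomial.X)).eval
        (Pool.Agent.U62.SH.tn n d p (Pool.Agent.Y722.HS.red p c)) - mean φ) := by
    unfold error
    rw [Finset.sum_filter, Finset.sum_filter]
    refine Finset.sum_congr rfl fun p _ => ?_
    have e2 : (φ.comp (-Polynomial.X)).eval (Pool.Agent.U62.SH.tn n d p (Pool.Agent.Y722.HS.red p c)) =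
        φ.eval (trace c p) := by
      rw [Polynomial.eval_comp, Polynomial.eval_neg, Polynomial.eval_X, trace_eq]
    rw [e2]
    by_cases hg : IsGood c p
    · rw [if_pos hg, if_pos ((good_iff c p).1 hg)]
    · rw [if_neg hg, if_neg (fun h => hg ((good_iff c p).2 h))]
  rw [e1]
  rfl

end Pool.Agent.Results.MP_4c4ce6_nt.NormalLaw
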